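import Pool.Agent.Helper63.P705.BS.Goals

/-!
# Packet BS-BB (MP_705522_gt): Gamma bounds
-/

set_option autoImplicit false

namespace Pool.Agent.Helper16.BS

open Pool.Agent.Helper63.P705

theorem core (g : ℕ) (G : ℝ) (h : |(g : ℝ) / 2 ^ 60 - G| ≤ 2⁻¹ ^ 50 * G) (hG : 0 < G) :
    2 ^ 60 * G ≤ ((g + g / 2 ^ 49 + 1 : ℕ) : ℝ) ∧ ((g - (g / 2 ^ 49 + 1) : ℕ) : ℝ) ≤ 2 ^ 60 * G ∧
      (1 ≤ G → 2 ^ 59 ≤ g - (g / 2 ^ 49 + 1)) := by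
  rw [abs_le] at h
  obtain ⟨h1, h2⟩ := h
  have e : (2⁻¹ : ℝ) ^ 50 = 1 / 2 ^ 50 := by norm_num
  rw [e] at h1 h2
  have hf1 : (g : ℝ) / 2 ^ 49 ≤ ((g / 2 ^ 49 : ℕ) : ℝ) + 1 := by
    have : g < 2 ^ 49 * (g / 2 ^ 49 + 1) := Nat.lt_mul_div_succ g (by norm_num)
    rw [div_le_iff₀ (by norm_num)]
    have h3 : (g : ℝ) ≤ ((2 ^ 49 * (g / 2 ^ 49 + 1) : ℕ) : ℝ) := by exact_mod_cast this.le
    push_cast at h3
    linarith
  have hf2 : ((g / 2 ^ 49 : ℕ) : ℝ) ≤ (g : ℝ) / 2 ^ 49 := by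
    have : 2 ^ 49 * (g / 2 ^ 49) ≤ g := Nat.mul_div_le g _
    rw [le_div_iff₀ (by norm_num)]
    have h3 : ((2 ^ 49 * (g / 2 ^ 49) : ℕ) : ℝ) ≤ (g : ℝ) := by exact_mod_cast this
    push_cast at h3
    linarith
  refine ⟨?_, ?_, fun h1G => ?_⟩
  · push_cast
    have : G * (1 - 1 / 2 ^ 50) ≤ (g : ℝ) / 2 ^ 60 := by linarith
    have h5 : (2 : ℝ) ^ 60 * G * (1 - 1 / 2 ^ 50) ≤ g := by
      rw [le_div_iff₀ (by norm_num)] at this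
      linarith
    have h6 : (2 : ℝ) ^ 60 * G ≤ g + g / 2 ^ 49 := by
      have h7 : (2 : ℝ) ^ 60 * G * (1 - 1 / 2 ^ 50) * (1 + 1 / 2 ^ 49) ≤ g * (1 + 1 / 2 ^ 49) :=
        mul_le_mul_of_nonneg_right h5 (by norm_num)
      have h8 : (1 : ℝ) ≤ (1 - 1 / 2 ^ 50) * (1 + 1 / 2 ^ 49) := by norm_num
      have h9 : (2 : ℝ) ^ 60 * G * 1 ≤ (2 : ℝ) ^ 60 * G * ((1 - 1 / 2 ^ 50) * (1 + 1 / 2 ^ 49)) :=
        mul_le_mul_of_nonneg_left h8 (by positivity)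
      linarith
    linarith
  · rcases le_total g (g / 2 ^ 49 + 1) with h3 | h3
    · rw [Nat.sub_eq_zero_of_le h3]
      simp only [Nat.cast_zero]
      positivity
    · rw [Nat.cast_sub h3]
      push_cast
      have : (g : ℝ) / 2 ^ 60 ≤ G * (1 + 1 / 2 ^ 50) := by linarith
      have h5 : (g : ℝ) ≤ 2 ^ 60 * G * (1 + 1 / 2 ^ 50) := by
        rw [div_le_iff₀ (by norm_num)] at this
        linarith
      have h6 : (g : ℝ) - g / 2 ^ 49 ≤ 2 ^ 60 * G := by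
        have h7 : (g : ℝ) * (1 - 1 / 2 ^ 49) ≤ 2 ^ 60 * G * (1 + 1 / 2 ^ 50) * (1 - 1 / 2 ^ 49) :=
          mul_le_mul_of_nonneg_right h5 (by norm_num)
        have h8 : (1 + 1 / 2 ^ 50) * (1 - 1 / 2 ^ 49) ≤ (1 : ℝ) := by norm_num
        have h9 : (2 : ℝ) ^ 60 * G * ((1 + 1 / 2 ^ 50) * (1 - 1 / 2 ^ 49)) ≤ (2 : ℝ) ^ 60 * G * 1 :=
          mul_le_mul_of_nonneg_left h8 (by positivity)
        linarith
      linarith
  · have : G * (1 - 1 / 2 ^ 50) ≤ (g : ℝ) / 2 ^ 60 := by linarith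
    have h5 : (2 : ℝ) ^ 60 * G * (1 - 1 / 2 ^ 50) ≤ g := by
      rw [le_div_iff₀ (by norm_num)] at this
      linarith
    have h6 : (2 : ℝ) ^ 60 * (1 - 1 / 2 ^ 50) ≤ g := by nlinarith
    have h7 : (2 : ℝ) ^ 59 + (((g / 2 ^ 49 : ℕ) : ℝ) + 1) ≤ g := by
      have h8 : (g : ℝ) / 2 ^ 49 = g * (1 / 2 ^ 49) := by ring
      have h9 : (g : ℝ) * (1 - 1 / 2 ^ 49) ≥ (2 : ℝ) ^ 60 * (1 - 1 / 2 ^ 50) * (1 - 1 / 2 ^ 49) :=
        mul_le_mul_of_nonneg_right h6 (by norm_num)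
      have h10 : (2 : ℝ) ^ 60 * (1 - 1 / 2 ^ 50) * (1 - 1 / 2 ^ 49) ≥ 2 ^ 59 + 1 := by norm_num
      linarith
    have h8 : 2 ^ 59 + (g / 2 ^ 49 + 1) ≤ g := by exact_mod_cast h7
    omega

/-- PACKET BB. -/
theorem bB : BB := by
  intro hN p hp1 hp2
  have h := hN.gam p hp1 hp2
  have hp0 : (0 : ℝ) < p / 8192 := by
    have : (0 : ℝ) < p := by exact_mod_cast (by omega : 0 < p)
    positivity
  have hG := Real.Gamma_pos_of_pos hp0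
  have eU : gamU p = gamN p + gamN p / 2 ^ 49 + 1 := by
    unfold gamU
    rw [sq_eq]
    generalize gamN p = g
    show (g + g >>> 49) + 1 = _
    rw [Nat.shiftRight_eq_div_pow]
  have eL : gamL p = gamN p - (gamN p / 2 ^ 49 + 1) := by
    unfold gamL
    rw [sq_eq]
    generalize gamN p = g
    show g - (g >>> 49 + 1) = _
    rw [Nat.shiftRight_eq_div_pow]
  obtain ⟨h1, h2, h3⟩ := core (gamN p) (Real.Gamma (p / 8192)) h hG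
  rw [eU, eL]
  refine ⟨h1, h2, fun hp => h3 ?_⟩
  have hx1 : (p : ℝ) / 8192 ≤ 1 := by
    rw [div_le_one (by norm_num)]
    exact_mod_cast hp
  have := Real.Gamma_strictAntiOn_Ioc.antitoneOn ⟨hp0, hx1⟩ ⟨one_pos, le_rfl⟩ hx1
  rwa [Real.Gamma_one] at this

end Pool.Agent.Helper16.BS
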